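import Pool.Agent.TH755.BN.Fin

/-!
# `P^NP`, `NEXP` and oracles tossed with biased coins

How much may an adversary influence the coins with which a random oracle is tossed, such that
`P^NP ≠ NEXP` relative to the oracle is still forced? The bits of the oracle are revealed in order
of length. A law is `ε`-biased if the next bit, for a string of length `m`, has each value with
conditional probability at most `1 / 2 + ε m`. So the adversary fails to determine this bit with
probability at least `1 / 2 - ε m`.

* If, for every `δ > 0`, `1 / 2 - ε m ≥ 2 ^ (-m ^ δ)` for infinitely many `m`, then, for every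
  `ε`-biased law and almost every oracle `A`, some language in `E` is neither in `P^NP`, nor in
  `PSPACE` with polynomial advice, nor in any class of languages given by countably many
  functionals which get the strings of polynomial length in `A` and `2 ^ o(n)` bits of advice.
* Otherwise, for some `ε`-biased law and almost every `A`, `P^NP = NEXP` relative to `A`.
-/

set_option autoImplicit false

namespace Pool.Agent.Results.MP_92db0f_lc.BiasedOracles

open Pool.Agent.NPC Pool.Agent.H620R2.Gauge Pool.Agent.H622R2.Exp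
open Pool.Agent.W900.BC (Biased)
open Pool.Agent.TH755.BN (LocalPoly)
open Pool.Agent.TH678.PN (IsPNP)
open MeasureTheory Filter

theorem result (ε : ℕ → ℝ) (hε : ∀ n, 0 ≤ ε n) :
    ((∀ δ : ℝ, 0 < δ → ∃ᶠ m : ℕ in atTop, (2 : ℝ) ^ (-((m : ℝ) ^ δ)) ≤ 1 / 2 - ε m) →
      ∀ μ : Measure Oracle, IsProbabilityMeasure μ → Biased ε μ →
        ∀ Ψ : ℕ → Oracle → List Bool → Prop, ∀ᵐ A ∂μ, ∃ L, InTime Lin A L ∧ ¬ IsPNP A L ∧
          ¬ WithAdvice (IsPSPACE A) L ∧ ¬ LocalPoly Ψ A L) ∧
    ((¬ ∀ δ : ℝ, 0 < δ → ∃ᶠ m : ℕ in atTop, (2 : ℝ) ^ (-((m : ℝ) ^ δ)) ≤ 1 / 2 - ε m) →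
      ∃ μ : Measure Oracle, IsProbabilityMeasure μ ∧ Biased ε μ ∧
        ∀ᵐ A ∂μ, ∀ L, IsPNP A L ↔ InNTime Pol A L) :=
  Pool.Agent.TH755.BN.main hε

end Pool.Agent.Results.MP_92db0f_lc.BiasedOracles
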