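import Pool.Agent.TH680.NX.Adv2
import Pool.Agent.TH680.NX.AbovePN
import Pool.Agent.TH680.DT.Empty

/-!
# `P^NP` and `NEXP` relative to random oracles: the exact density threshold

The strings `x` are put into the oracle `A` independently, with a probability `q |x|` that depends on
the length only, where `q` is an arbitrary function (`rand q` is the distribution of `A`). Let
`rare q n = 2 ^ n * min (q n) (1 - q n)`, the expected number of the strings of length `n` for which
`A` has the less probable value. Let `Q` be any further oracle, and `common q` the oracle of the more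
probable values.

(1) If the series `∑ rare q n` diverges then, for every `Q` and almost all `A`, some language in
`NE` (nondeterministic time `2 ^ O(n)`) relative to `Q ⊕ A` is neither in `P^NP` with polynomial
advice nor in `EXP`. So the chain `P^NP ⊆ PSPACE ⊆ EXP ⊆ NEXP` is strict at its last inclusion.

(2) If the series converges then, for every `Q` and almost all `A`, the oracles `Q ⊕ A` and
`Q ⊕ common q` give the same class `P^NP` and the same class `NEXP`.

(3) So there is a law: for every `q` and every `Q`, almost surely, `P^NP = NEXP` relative to `Q ⊕ A`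
if and only if the series converges and `P^NP = NEXP` relative to `Q ⊕ common q`.

(4) For every `q` there is an oracle `Q` such that, almost surely, `P^NP = NEXP` relative to `Q ⊕ A`
if and only if the series converges.

The proof of (1): `TH680.NX.ae_adv`, the theorem behind our hand-in `MP_70d3b5_lc.DensityThreshold`:
the bits of a rare witness of exponential length cannot be computed in doubly exponential time
`2 ^ (2 ^ (n / 100))` with `2 ^ (n / 100)` bits of advice. The proof of (4): the coding of helper678
(`TH678.PN`, behind `MP_92db0f_lc.GaugeThreshold`; the number of the coded answer is found with an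
`NP` oracle), here above the oracle `common q`.
-/

set_option autoImplicit false

namespace Pool.Agent.Results.MP_92db0f_lc.DensityThreshold

open MeasureTheory Pool.Agent.NPC Pool.Agent.H620R2.Gauge Pool.Agent.H622R2.Exp
open Pool.Agent.W900.IE (indep)
open Pool.Agent.TH678.PN (IsPNP)

/-- The distribution of the random oracle: the strings `x` are in the oracle with probability
`q |x|`, independently. -/
noncomputable def rand (q : ℕ → unitInterval) : Measure Oracle := indep (fun x => q x.length)

/-- The expected number of the strings of length `n` for which the random oracle has the less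
probable value. -/
noncomputable def rare (q : ℕ → unitInterval) (n : ℕ) : ℝ := 2 ^ n * min (q n : ℝ) (1 - q n)

/-- The oracle of the more probable values. -/
noncomputable def common (q : ℕ → unitInterval) : Oracle := fun x =>
  decide ((1 / 2 : ℝ) < q x.length)

/-- The disjoint union of the oracles `Q` and `A`. -/
def join (Q A : Oracle) : Oracle
  | [] => false
  | false :: z => Q z
  | true :: z => A z

theorem join_eq : TH680.OD.join = join := by
  funext Q A x
  rcases x with _ | ⟨b, z⟩
  · rfl
  · cases b <;> rfl

theorem rare_eq (q : ℕ → unitInterval) : W900.IE.dev (TH680.DT.pq q) = rare q := by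
  funext n
  unfold W900.IE.dev TH680.DT.pq rare
  have h : ∀ v : Fin n → Bool, min (q (List.ofFn v).length : ℝ) (1 - q (List.ofFn v).length) =
      min (q n : ℝ) (1 - q n) := fun v => by rw [List.length_ofFn]
  rw [Finset.sum_congr rfl fun v _ => h v, Finset.sum_const, nsmul_eq_mul, Finset.card_univ]
  simp

theorem poly_join {E : List Bool → Bool} (hE : Poly E) :
    Poly (fun x : List Bool => decide (x.head? = some true) && E x.tail) :=
  Poly.and (Poly.decide_eq (Poly.head? Poly.id) (NPC.Poly.const _)) (hE.comp (Poly.tail Poly.id))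

theorem join_xor (Q : Oracle) {A D : Oracle} {E : List Bool → Bool}
    (h : ∀ x, D x = (A x ^^ E x)) (x : List Bool) :
    join Q D x = (join Q A x ^^ (decide (x.head? = some true) && E x.tail)) := by
  rcases x with _ | ⟨b, z⟩
  · rfl
  · cases b with
    | false => simp [join]
    | true =>
      show D z = _
      rw [h]
      simp [join]

theorem same {O O' : Oracle} {E : List Bool → Bool} (hE : Poly E)
    (h : ∀ x, O' x = (O x ^^ E x)) (L : Set (List Bool)) :
    (IsPNP O L ↔ IsPNP O' L) ∧ (InNTime Pol O L ↔ InNTime Pol O' L) := by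
  have h1 := TH680.DT.same_isFP hE h
  have h2 : ∀ L, IsNP O L ↔ IsNP O' L := fun L => by
    unfold IsNP
    simp only [h1]
  refine ⟨?_, ?_⟩
  · unfold IsPNP
    simp only [h2]
  · unfold InNTime
    simp only [h1]

/-- **`P^NP` and `NEXP` relative to random oracles: the exact density threshold.** -/
theorem result (q : ℕ → unitInterval) :
    (¬ Summable (rare q) → ∀ Q : Oracle, ∀ᵐ A ∂(rand q), ∃ L, InNTime Lin (join Q A) L ∧
      ¬ WithAdvice (IsPNP (join Q A)) L ∧ ¬ InTime Pol (join Q A) L) ∧
    (Summable (rare q) → ∀ Q : Oracle, ∀ᵐ A ∂(rand q), ∀ L : Set (List Bool),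
      (IsPNP (join Q A) L ↔ IsPNP (join Q (common q)) L) ∧
      (InNTime Pol (join Q A) L ↔ InNTime Pol (join Q (common q)) L)) ∧
    (∀ Q : Oracle, ∀ᵐ A ∂(rand q),
      ((∀ L, IsPNP (join Q A) L ↔ InNTime Pol (join Q A) L) ↔ (Summable (rare q) ∧
        ∀ L, IsPNP (join Q (common q)) L ↔ InNTime Pol (join Q (common q)) L))) ∧
    ∃ Q : Oracle, ∀ᵐ A ∂(rand q),
      ((∀ L, IsPNP (join Q A) L ↔ InNTime Pol (join Q A) L) ↔ Summable (rare q)) := by
  have hincl : ∀ {O : Oracle} {L : Set (List Bool)}, IsPNP O L → InTime Pol O L := by
    intro O L h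
    exact h.isPH.isPSPACE.inTime
  have h1 : ¬ Summable (rare q) → ∀ Q : Oracle, ∀ᵐ A ∂(rand q), ∃ L,
      InNTime Lin (join Q A) L ∧ ¬ WithAdvice (IsPNP (join Q A)) L ∧
        ¬ InTime Pol (join Q A) L := by
    intro h Q
    have h2 := TH680.NX.ae_adv (q := q) h Q
    rw [join_eq] at h2
    filter_upwards [h2] with A hA
    obtain ⟨L, hL, hA⟩ := hA
    refine ⟨L, hL, fun h3 => hA ?_, fun h3 => hA ?_⟩
    · obtain ⟨L', g, p, h5, h6, h7⟩ := h3
      exact TH680.NX.inTimeAdv_of_wtime ⟨L', g, p, hincl h5, h6, h7⟩
    · exact TH680.NX.inTimeAdv_of_time h3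
  have h2 : Summable (rare q) → ∀ Q : Oracle, ∀ᵐ A ∂(rand q), ∀ L : Set (List Bool),
      (IsPNP (join Q A) L ↔ IsPNP (join Q (common q)) L) ∧
      (InNTime Pol (join Q A) L ↔ InNTime Pol (join Q (common q)) L) := by
    intro h Q
    rw [← rare_eq] at h
    filter_upwards [TH680.DT.ae_same h] with A hA
    have hx : ∀ x, common q x = (A x ^^ (A x ^^ common q x)) := fun x => by
      cases A x <;> cases common q x <;> rfl
    exact same (poly_join hA) (join_xor Q hx)
  have h3 : ∀ Q : Oracle, ∀ᵐ A ∂(rand q),
      ((∀ L, IsPNP (join Q A) L ↔ InNTime Pol (join Q A) L) ↔ (Summable (rare q) ∧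
        ∀ L, IsPNP (join Q (common q)) L ↔ InNTime Pol (join Q (common q)) L)) := by
    intro Q
    by_cases hs : Summable (rare q)
    · filter_upwards [h2 hs Q] with A hA
      simp only [hs, true_and]
      exact forall_congr' fun L => by rw [(hA L).1, (hA L).2]
    · filter_upwards [h1 hs Q] with A hA
      obtain ⟨L, hL, h4, _⟩ := hA
      refine ⟨fun h => absurd ?_ h4, fun h => absurd h.1 hs⟩
      have h5 : IsPNP (join Q A) L := by
        rw [h L]
        obtain ⟨V, hV, p, _, h6⟩ := hL
        exact ⟨V, hV, p, Set.mem_univ _, h6⟩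
      exact TH680.NX.pnp_withAdvice h5
  refine ⟨h1, h2, h3, ?_⟩
  obtain ⟨Q, hQ⟩ := TH680.NX.exists_above_pnp (common q)
  rw [join_eq] at hQ
  refine ⟨Q, ?_⟩
  filter_upwards [h3 Q] with A hA
  rw [hA]
  refine ⟨fun h => h.1, fun h => ⟨h, fun L => ⟨fun h4 => ?_, hQ L⟩⟩⟩
  exact h4.isPH.isPSPACE.inTime.isNTime

end Pool.Agent.Results.MP_92db0f_lc.DensityThreshold
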