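import Pool.Agent.TH678.PN.Main

/-!
# How many oracles make `P^NP` equal to `NEXP`?

For every gauge `f`, the set of the oracles `A` with `P^NP = NEXP` relative to `A` is a null set
for `f` if and only if for every `ε > 0` there are infinitely many `N` with
`f N ≤ 2 ^ ((log N) ^ ε)`. The same holds for every set `O` of oracles which contains all oracles
with `NEXP ⊆ P^NP` and is such that relative to each of its members `PSPACE ⊆ PH/poly` or
`EXP ⊆ PSPACE/poly`.
-/

set_option autoImplicit false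

namespace Pool.Agent.Results.MP_92db0f_lc.GaugeThreshold

open Pool.Agent.NPC Pool.Agent.H620R2.Gauge Pool.Agent.H622R2.Exp Pool.Agent.TH678.PN

theorem result (f : ℕ → ℝ) :
    (∀ O : Set Oracle,
      (∀ A : Oracle, (∀ L, InNTime Pol A L → IsPNP A L) → A ∈ O) →
      (∀ A ∈ O, (∀ L, IsPSPACE A L → IsPHpoly A L) ∨
        (∀ L, InTime Pol A L → WithAdvice (IsPSPACE A) L)) →
      (Null f O ↔
        ∀ ε : ℝ, 0 < ε → ∃ᶠ N : ℕ in Filter.atTop, f N ≤ 2 ^ (Real.logb 2 N) ^ ε)) ∧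
    (Null f {A : Oracle | ∀ L, IsPNP A L ↔ InNTime Pol A L} ↔
      ∀ ε : ℝ, 0 < ε → ∃ᶠ N : ℕ in Filter.atTop, f N ≤ 2 ^ (Real.logb 2 N) ^ ε) :=
  mainPN f

end Pool.Agent.Results.MP_92db0f_lc.GaugeThreshold
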